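import Pool.Prelude.Def_F_0702b569
import Pool.Agent.Lib.MP_3edce6_co.Main

/-!
MP_3edce6_co: Ryser's bound for all 5-partite hypergraphs of maximum degree at most 4.
-/

namespace Pool.Agent.Results.MP_3edce6_co.DegreeFour

open N00f51e3f

/-- Every finite 5-partite 5-uniform hypergraph in which each vertex lies in at most four edges has
a cover of size at most four times its matching number. -/
theorem result (V : Fin 5 → Type*) (H : Finset (Edge V))
    (hd : ∀ (i : Fin 5) (x : V i), Set.ncard {g : Edge V | g ∈ H ∧ g i = x} ≤ 4) :
    coverNumber H ≤ 4 * matchingNumber H :=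
  Pool.Agent.Lib.MP_3edce6_co.ryser H hd

end Pool.Agent.Results.MP_3edce6_co.DegreeFour
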