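import Pool.Prelude.Def_F_0702b569
import Pool.Agent.Lib.RLin.Main

/-!
MP_3edce6_co: 5-partite hypergraphs with small codegrees and a class of large average degree.
-/

namespace Pool.Agent.Results.MP_3edce6_co.SmallCodegrees

open N00f51e3f

/-- Let `H` be a finite 5-partite 5-uniform hypergraph in which each vertex of the class `i` lies in
at most `D i` edges and any two vertices of different classes lie in at most `c` common edges
(`c = 1`: `H` is linear), and let `M` be at least all `D i` and at least `20 c - 4`. Then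
`2 |H| ≤ (∑ D i + M - 4) ν(H)`, and if in some class the average degree of the vertices which lie in
edges is at least `(∑ D i + M - 4) / 8`, then `τ(H) ≤ 4 ν(H)`. -/
theorem result (V : Fin 5 → Type*) (H : Finset (Edge V)) (D : Fin 5 → ℕ) (M c : ℕ) (hc : 1 ≤ c)
    (hcM : 20 * c ≤ M + 4) (hDM : ∀ i, D i ≤ M)
    (hD : ∀ (i : Fin 5) (x : V i), Set.ncard {g : Edge V | g ∈ H ∧ g i = x} ≤ D i)
    (hcod : ∀ i j : Fin 5, i ≠ j → ∀ (x : V i) (y : V j),
      Set.ncard {g : Edge V | g ∈ H ∧ g i = x ∧ g j = y} ≤ c) :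
    2 * H.card ≤ ((∑ i, D i) + M - 4) * matchingNumber H ∧
    ∀ j : Fin 5, ((∑ i, D i) + M - 4) * Set.ncard {x : V j | ∃ g ∈ H, g j = x} ≤ 8 * H.card →
      coverNumber H ≤ 4 * matchingNumber H :=
  Pool.Agent.Lib.RLin.ryser_final H D M c hc hcM hDM hD hcod

end Pool.Agent.Results.MP_3edce6_co.SmallCodegrees
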